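import Pool.Agent.Q256.MP.Stm

/-!
# Project MP, job FIB: systems with given values at several points
-/

set_option autoImplicit false

noncomputable section

namespace Pool.Agent.Q198.MP

open Pool.Agent.W276.GE Pool.Agent.Q256.MP

/-- forms with given values at the points `z i` -/
theorem card_values_le {m n : ℕ} (z : Fin m → Fin n → ℂ) (d H : ℕ) (v : Fin m → ℂ) :
    {g : E n d → ℤ | g ∈ box n d H ∧ ∀ i, ev g (z i) = v i}.ncard ≤ nzj z d (2 * H) := by
  classical
  rcases Set.eq_empty_or_nonempty {g : E n d → ℤ | g ∈ box n d H ∧ ∀ i, ev g (z i) = v i} with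
    h | ⟨g₀, hg₀⟩
  · rw [h, Set.ncard_empty]
    exact Nat.zero_le _
  · refine Set.ncard_le_ncard_of_injOn (fun g => g - g₀) ?_ ?_
      ((box n d (2 * H)).finite_toSet.subset fun _ h => h.1)
    · intro g hg
      refine ⟨?_, fun i => ?_⟩
      · have := sub_mem_box hg.1 hg₀.1
        rwa [← two_mul] at this
      · rw [ev_sub, hg.2 i, hg₀.2 i, sub_self]
    · intro g _ g' _ h
      exact sub_left_injective h

theorem comb_mem {N d H R : ℕ} {u : Fin (N + 1) → ℤ} (hu : ∀ j, |u j| ≤ (R : ℤ)) {F : Sy N d}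
    (hF : F ∈ Fb (N + 1) d H) : (∑ j, u j • F j) ∈ box (N + 1) d ((N + 1) * R * H) := by
  rw [mem_box]
  intro α
  rw [Finset.sum_apply]
  calc |∑ j, (u j • F j) α| ≤ ∑ j, |(u j • F j) α| := Finset.abs_sum_le_sum_abs _ _
    _ ≤ ∑ _j : Fin (N + 1), (R : ℤ) * H := by
        refine Finset.sum_le_sum fun j _ => ?_
        rw [Pi.smul_apply, smul_eq_mul, abs_mul]
        exact mul_le_mul (hu j) (mem_box.mp (mem_Fb.mp hF j) α) (abs_nonneg _) (by positivity)
    _ = (((N + 1) * R * H : ℕ) : ℤ) := by
        rw [Finset.sum_const, Finset.card_univ, Fintype.card_fin, nsmul_eq_mul]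
        push_cast
        ring

theorem fib (h : S_avoid) : S_fib := by
  classical
  intro N d m hm
  obtain ⟨R, hR⟩ := h (N + 1) m
  refine ⟨((2 * (N + 1) * R + 1 : ℕ) : ℝ) ^ MM N d, by positivity, fun H hH z w hw => ?_⟩
  obtain ⟨u, hu, huw⟩ := hR w hw
  obtain ⟨j₀, hj₀⟩ : ∃ j₀, u j₀ ≠ 0 := by
    by_contra hcon
    push Not at hcon
    apply huw ⟨0, hm⟩
    simp [hcon]
  let s : Fin m → ℂ := fun i => ∑ j, (u j : ℂ) * w i j
  have hs : ∀ i, s i ≠ 0 := huw
  let B : ℕ := (N + 1) * R * H
  let S : (E (N + 1) d → ℤ) → Fin (N + 1) → Finset (E (N + 1) d → ℤ) := fun G j =>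
    if j = j₀ then {G} else
      (box (N + 1) d H).filter (fun g => ∀ i, ev g (z i) = ev G (z i) / s i * w i j)
  have hcard : ∀ G, (Fintype.piFinset (S G)).card ≤ nzj z d (2 * H) ^ N := by
    intro G
    rw [Fintype.card_piFinset, ← Finset.mul_prod_erase Finset.univ _ (Finset.mem_univ j₀)]
    have h1 : (S G j₀).card = 1 := by simp [S]
    rw [h1, one_mul]
    calc ∏ i ∈ Finset.univ.erase j₀, (S G i).card
        ≤ ∏ _i ∈ (Finset.univ : Finset (Fin (N + 1))).erase j₀, nzj z d (2 * H) := by
          refine Finset.prod_le_prod' fun i hi => ?_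
          have hne : i ≠ j₀ := Finset.ne_of_mem_erase hi
          have h2 : ((S G i : Finset _) : Set (E (N + 1) d → ℤ)) =
              {g | g ∈ box (N + 1) d H ∧ ∀ k, ev g (z k) = ev G (z k) / s k * w k i} := by
            ext g
            simp [S, hne]
          rw [← Set.ncard_coe_finset, h2]
          exact card_values_le z d H _
      _ = nzj z d (2 * H) ^ N := by
          rw [Finset.prod_const, Finset.card_erase_of_mem (Finset.mem_univ _), Finset.card_univ,
            Fintype.card_fin, Nat.add_sub_cancel]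
  have hmain : {F : Sy N d | F ∈ Fb (N + 1) d H ∧ Cf z w F}.ncard ≤
      (((box (N + 1) d B).biUnion fun G => Fintype.piFinset (S G) : Finset (Sy N d)) :
        Set (Sy N d)).ncard := by
    refine Set.ncard_le_ncard_of_injOn
      (fun F => Function.update F j₀ (∑ j, u j • F j)) ?_ ?_ (Finset.finite_toSet _)
    · rintro F ⟨hF, hC⟩
      rw [Finset.mem_coe, Finset.mem_biUnion]
      refine ⟨∑ j, u j • F j, comb_mem hu hF, ?_⟩
      rw [Fintype.mem_piFinset]
      intro j
      by_cases hj : j = j₀
      · subst hj; simp [S]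
      · simp only [S, if_neg hj, Finset.mem_filter, Function.update_of_ne hj]
        refine ⟨mem_Fb.mp hF j, fun i => ?_⟩
        obtain ⟨c, hc⟩ := hC i
        have h3 : ev (∑ j, u j • F j) (z i) = c * s i := by
          rw [ev_sum]
          simp only [s, Finset.mul_sum]
          refine Finset.sum_congr rfl fun k _ => ?_
          rw [ev_zsmul, hc k]
          ring
        rw [h3, hc j, mul_div_assoc, div_self (hs i), mul_one]
    · intro F _ F' _ hFF
      have h4 : ∀ j, j ≠ j₀ → F j = F' j := by
        intro j hj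
        have := congrFun hFF j
        simpa [Function.update_of_ne hj] using this
      have h5 : ∑ j, u j • F j = ∑ j, u j • F' j := by
        have := congrFun hFF j₀
        simpa using this
      rw [← Finset.add_sum_erase _ _ (Finset.mem_univ j₀),
        ← Finset.add_sum_erase _ _ (Finset.mem_univ j₀)] at h5
      have h6 : ∑ j ∈ Finset.univ.erase j₀, u j • F j = ∑ j ∈ Finset.univ.erase j₀, u j • F' j :=
        Finset.sum_congr rfl fun j hj => by rw [h4 j (Finset.ne_of_mem_erase hj)]
      rw [h6] at h5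
      have h7 := add_right_cancel h5
      funext j
      by_cases hj : j = j₀
      · subst hj
        funext α
        have h8 := congrFun h7 α
        simp only [Pi.smul_apply, smul_eq_mul] at h8
        exact mul_left_cancel₀ hj₀ h8
      · exact h4 j hj
  have hnat : {F : Sy N d | F ∈ Fb (N + 1) d H ∧ Cf z w F}.ncard ≤
      ((2 * (N + 1) * R + 1) * H) ^ MM N d * nzj z d (2 * H) ^ N := by
    refine hmain.trans ?_
    rw [Set.ncard_coe_finset]
    refine (Finset.card_biUnion_le_card_mul _ _ _ fun G _ => hcard G).trans ?_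
    rw [card_box]
    refine Nat.mul_le_mul_right _ (Nat.pow_le_pow_left ?_ _)
    simp only [B]
    nlinarith
  calc ({F : Sy N d | F ∈ Fb (N + 1) d H ∧ Cf z w F}.ncard : ℝ)
      ≤ ((((2 * (N + 1) * R + 1) * H) ^ MM N d * nzj z d (2 * H) ^ N : ℕ) : ℝ) := by
        exact_mod_cast hnat
    _ = _ := by
        push_cast
        rw [mul_pow]

end Pool.Agent.Q198.MP
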