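import Pool.Agent.Q256.MP.Stm

/-!
# Project MP, job TUP: the union bound over tuples of points
-/

set_option autoImplicit false

noncomputable section

namespace Pool.Agent.Q198.MP

open Pool.Agent.W276.GE Pool.Agent.Q256.MP

theorem tup (h : S_fib) : S_tup := by
  classical
  intro N d m hm
  obtain ⟨C, hC, hF⟩ := h N d m hm
  refine ⟨C, hC, fun H hH A R hR => ?_⟩
  let Pt : Finset (Fin m → Fin (N + 1) → ℂ) :=
    Fintype.piFinset fun _ => Fintype.piFinset fun _ => A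
  let Pr : Finset ((Fin m → Fin (N + 1) → ℂ) × (Fin m → Fin (N + 1) → ℂ)) :=
    (Pt ×ˢ Pt).filter fun pq => (∀ i, pq.2 i ≠ 0) ∧ (nzj pq.1 d (2 * H) : ℝ) ≤ R
  let S : (Fin m → Fin (N + 1) → ℂ) × (Fin m → Fin (N + 1) → ℂ) → Finset (Sy N d) :=
    fun pq => (Fb (N + 1) d H).filter fun F => Cf pq.1 pq.2 F
  have hS : ∀ pq ∈ Pr, ((S pq).card : ℝ) ≤ C * (H : ℝ) ^ MM N d * R ^ N := by
    rintro ⟨z, w⟩ hpq
    rw [Finset.mem_filter] at hpq
    have h1 := hF H hH z w hpq.2.1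
    have h2 : ((S (z, w) : Finset _) : Set (Sy N d)) =
        {F | F ∈ Fb (N + 1) d H ∧ Cf z w F} := by
      ext F
      simp [S]
    rw [← h2, Set.ncard_coe_finset] at h1
    refine h1.trans ?_
    have h4 := hpq.2.2
    gcongr
  have hsub : {F : Sy N d | F ∈ Fb (N + 1) d H ∧ ∃ z w : Fin m → Fin (N + 1) → ℂ,
      (∀ i j, z i j ∈ A) ∧ (∀ i j, w i j ∈ A) ∧ (∀ i, w i ≠ 0) ∧ (nzj z d (2 * H) : ℝ) ≤ R ∧
      Cf z w F} ⊆ ((Pr.biUnion S : Finset _) : Set (Sy N d)) := by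
    rintro F ⟨hFb, z, w, hz, hw, hw0, hn, hcf⟩
    rw [Finset.mem_coe, Finset.mem_biUnion]
    refine ⟨(z, w), ?_, ?_⟩
    · rw [Finset.mem_filter, Finset.mem_product]
      refine ⟨⟨?_, ?_⟩, hw0, hn⟩
      · exact Fintype.mem_piFinset.2 fun i => Fintype.mem_piFinset.2 (hz i)
      · exact Fintype.mem_piFinset.2 fun i => Fintype.mem_piFinset.2 (hw i)
    · rw [Finset.mem_filter]
      exact ⟨hFb, hcf⟩
  have hcardPr : (Pr.card : ℝ) ≤ (A.card : ℝ) ^ (2 * m * (N + 1)) := by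
    have h1 : Pr.card ≤ A.card ^ (2 * m * (N + 1)) := by
      refine (Finset.card_filter_le _ _).trans ?_
      rw [Finset.card_product, Fintype.card_piFinset]
      simp only [Fintype.card_piFinset, Finset.prod_const, Finset.card_univ, Fintype.card_fin]
      rw [← pow_mul, ← pow_add]
      exact le_of_eq (congrArg _ (by ring))
    exact_mod_cast h1
  calc _ ≤ ((Pr.biUnion S).card : ℝ) := by
        have := Set.ncard_le_ncard hsub (Finset.finite_toSet _)
        rw [Set.ncard_coe_finset] at this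
        exact_mod_cast this
    _ ≤ ∑ pq ∈ Pr, ((S pq).card : ℝ) := by
        exact_mod_cast Finset.card_biUnion_le
    _ ≤ ∑ _pq ∈ Pr, C * (H : ℝ) ^ MM N d * R ^ N := Finset.sum_le_sum hS
    _ = Pr.card * (C * (H : ℝ) ^ MM N d * R ^ N) := by rw [Finset.sum_const, nsmul_eq_mul]
    _ ≤ (A.card : ℝ) ^ (2 * m * (N + 1)) * (C * (H : ℝ) ^ MM N d * R ^ N) := by gcongr
    _ = _ := by ring

end Pool.Agent.Q198.MP
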