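import Mathlib
import Pool.Agent.Q82.QC.Stm

/-!
# Project QC of helper82: the approximate equation (job APP)
-/

set_option autoImplicit false

open MeasureTheory Filter Topology Real InnerProductSpace Laplacian

namespace Pool.Agent.Q82.QC

private lemma app_fac (t : ℝ) : 0 ≤ max 0 (min 1 t) ∧ max 0 (min 1 t) ≤ 1 :=
  ⟨le_max_left _ _, max_le zero_le_one (min_le_left _ _)⟩

private lemma app_one {t : ℝ} (ht : 1 ≤ t) : max 0 (min 1 t) = 1 := by
  rw [min_eq_left ht, max_eq_right zero_le_one]

theorem app (h1 : S_RAT) : S_APP := by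
  intro A hA η hη K hK hKO
  -- the constants of the compact set
  obtain ⟨d, hd, hdK⟩ : ∃ d : ℝ, 0 < d ∧ ∀ x ∈ K, d ≤ 2 - |x 0| := by
    rcases K.eq_empty_or_nonempty with h | h
    · exact ⟨1, one_pos, by simp [h]⟩
    · have hcont : Continuous fun x : E => 2 - |x 0| := by fun_prop
      obtain ⟨x0, hx0, hmin⟩ := hK.exists_isMinOn h hcont.continuousOn
      refine ⟨2 - |x0 0|, ?_, fun x hx => hmin hx⟩
      have h2 := hKO hx0
      have h3 : |x0 0| < 2 := abs_lt.2 ⟨h2.1, h2.2⟩
      linarith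
  obtain ⟨R, hR⟩ := hK.isBounded.exists_norm_le
  filter_upwards [h1 A hA η hη, eventually_ge_atTop (2 / d), eventually_ge_atTop R,
    eventually_gt_atTop (0 : ℝ)] with β hβ1 hβ2 hβ3 hβ4
  intro x hx
  have hchi : chi β x = 1 := by
    unfold chi
    have e1 : 1 ≤ β * (2 - |x 0|) - 1 := by
      have h3 : 2 ≤ β * d := by rwa [div_le_iff₀ hd] at hβ2
      have h4 : β * d ≤ β * (2 - |x 0|) := mul_le_mul_of_nonneg_left (hdK x hx) hβ4.le
      linarith
    have e2 : 1 ≤ β + 1 - ‖x‖ := by
      have := hR x hx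
      linarith
    rw [app_one e1, app_one e2, mul_one]
  have hp0 : 0 ≤ psi A β x := by
    unfold psi
    exact Finset.prod_nonneg fun a _ => (app_fac _).1
  have hp1 : psi A β x ≤ 1 := by
    unfold psi
    exact Finset.prod_le_one (fun a _ => (app_fac _).1) fun a _ => (app_fac _).2
  have e3 : B A β x + gg A β x - 6 * Real.exp (4 * W A β x) =
      (1 - psi A β x) * (B A β x - 6 * Real.exp (4 * W A β x)) := by
    unfold gg
    rw [hchi]
    ring
  rw [e3, abs_mul, abs_of_nonneg (by linarith : 0 ≤ 1 - psi A β x)]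
  by_cases hex : ∃ a ∈ A, ‖x - a‖ ≤ 2 / β
  · obtain ⟨a, ha, hax⟩ := hex
    have h3 := hβ1 a ha x hax
    calc (1 - psi A β x) * |B A β x - 6 * Real.exp (4 * W A β x)| ≤
        1 * |B A β x - 6 * Real.exp (4 * W A β x)| :=
          mul_le_mul_of_nonneg_right (by linarith) (abs_nonneg _)
      _ ≤ _ := by rw [one_mul]; exact h3
  · push Not at hex
    have h4 : psi A β x = 1 := by
      unfold psi
      refine Finset.prod_eq_one fun a ha => app_one ?_
      have h5 := hex a ha
      rw [div_lt_iff₀ hβ4] at h5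
      linarith
    rw [h4, sub_self, zero_mul]
    positivity

end Pool.Agent.Q82.QC
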