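import Mathlib
import Pool.Agent.Q82.QC.Stm

/-!
# Project QC of helper82: choice of the regularisation (job EPS)
-/

set_option autoImplicit false

open MeasureTheory Filter Topology Real InnerProductSpace Laplacian

namespace Pool.Agent.Q82.QC

theorem eps (h1 : S_WL) (h2 : S_MOL) : S_EPS := by
  intro A hA β hc hs η hη K hK hKO
  have hW : ContinuousOn (fun x => 6 * Real.exp (4 * W A β x)) K := by
    intro x hx
    have h3 : ContinuousAt (W A β) x := ((h1 A hA β x (hKO hx)).1 0).continuousAt
    exact (continuousAt_const.mul (Real.continuous_exp.continuousAt.comp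
      (continuousAt_const.mul h3))).continuousWithinAt
  obtain ⟨m, hm, hmK⟩ : ∃ m : ℝ, 0 < m ∧ ∀ x ∈ K, m ≤ 6 * Real.exp (4 * W A β x) := by
    rcases K.eq_empty_or_nonempty with h | h
    · exact ⟨1, one_pos, by simp [h]⟩
    · obtain ⟨x0, hx0, hmin⟩ := hK.exists_isMinOn h hW
      exact ⟨6 * Real.exp (4 * W A β x0), by positivity, fun x hx => hmin hx⟩
  obtain ⟨e0, he0, h3⟩ := h2 _ hc hs (η * m) (by positivity)
  refine ⟨min 1 (e0 / 2), lt_min one_pos (by linarith), min_le_left _ _, fun x hx => ?_⟩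
  have h4 := h3 (min 1 (e0 / 2)) (lt_min one_pos (by linarith))
    (lt_of_le_of_lt (min_le_right _ _) (by linarith)) x
  exact h4.trans (mul_le_mul_of_nonneg_left (hmK x hx) hη.le)

end Pool.Agent.Q82.QC
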